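import Pool.Agent.Y377.IL.Stm

/-!
Project IL (helper377), job NOE: elementary properties of the extension by a fundamental matrix
-/

set_option autoImplicit false

namespace Pool.Agent.Y71.IL

open Pool.Agent.Y377.EL Pool.Agent.Y377.IL MvPolynomial

variable {K : Type} [Field K] [Algebra ℂ K]

/-- the elements of `S` with derivative in `S` -/
def stabSub (D : Derivation ℂ K K) (S : Subalgebra ℂ K) : Subalgebra ℂ K where
  carrier := {x | x ∈ S ∧ D x ∈ S}
  mul_mem' := by
    rintro a b ⟨ha, ha'⟩ ⟨hb, hb'⟩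
    refine ⟨S.mul_mem ha hb, ?_⟩
    rw [D.leibniz]
    exact S.add_mem (S.mul_mem ha hb') (S.mul_mem hb ha')
  add_mem' := by
    rintro a b ⟨ha, ha'⟩ ⟨hb, hb'⟩
    refine ⟨S.add_mem ha hb, ?_⟩
    rw [map_add]
    exact S.add_mem ha' hb'
  algebraMap_mem' := fun c => ⟨S.algebraMap_mem c, by
    rw [D.map_algebraMap]
    exact S.zero_mem⟩

/-- the elements on which two derivations commute -/
def comSub (D δ : Derivation ℂ K K) : Subalgebra ℂ K where
  carrier := {x | D (δ x) = δ (D x)}
  mul_mem' := by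
    intro a b ha hb
    have ha' : D (δ a) = δ (D a) := ha
    have hb' : D (δ b) = δ (D b) := hb
    change D (δ (a * b)) = δ (D (a * b))
    simp only [Derivation.leibniz, map_add, smul_eq_mul]
    rw [ha', hb']
    ring
  add_mem' := by
    intro a b ha hb
    have ha' : D (δ a) = δ (D a) := ha
    have hb' : D (δ b) = δ (D b) := hb
    change D (δ (a + b)) = δ (D (a + b))
    simp only [map_add]
    rw [ha', hb']
  algebraMap_mem' := fun c => by
    change D (δ _) = δ (D _)
    rw [δ.map_algebraMap, D.map_algebraMap, map_zero, map_zero]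

theorem mat_le {R S : Subalgebra ℂ K} {n : ℕ} {X Y : Matrix (Fin n) (Fin n) K} (hR : R ≤ S)
    (hX : ∀ i j, X i j ∈ S) (hY : ∀ i j, Y i j ∈ S) : mat R X Y ≤ S := by
  refine sup_le hR (Algebra.adjoin_le ?_)
  rintro x ⟨i, j, h | h⟩
  · rw [h]; exact hX i j
  · rw [h]; exact hY i j

theorem base_le {R : Subalgebra ℂ K} {n : ℕ} {X Y : Matrix (Fin n) (Fin n) K} :
    R ≤ mat R X Y := le_sup_left

theorem X_mem {R : Subalgebra ℂ K} {n : ℕ} {X Y : Matrix (Fin n) (Fin n) K} (i j : Fin n) :
    X i j ∈ mat R X Y :=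
  (le_sup_right : _ ≤ mat R X Y) (Algebra.subset_adjoin ⟨i, j, Or.inl rfl⟩)

theorem Y_mem {R : Subalgebra ℂ K} {n : ℕ} {X Y : Matrix (Fin n) (Fin n) K} (i j : Fin n) :
    Y i j ∈ mat R X Y :=
  (le_sup_right : _ ≤ mat R X Y) (Algebra.subset_adjoin ⟨i, j, Or.inr rfl⟩)

/-- the entrywise derivation of a matrix -/
def dm {n : ℕ} (D : Derivation ℂ K K) (A : Matrix (Fin n) (Fin n) K) :
    Matrix (Fin n) (Fin n) K := fun i j => D (A i j)

theorem dm_mul {n : ℕ} (D : Derivation ℂ K K) (A B : Matrix (Fin n) (Fin n) K) :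
    dm D (A * B) = A * dm D B + dm D A * B := by
  ext i j
  rw [Matrix.add_apply, Matrix.mul_apply, Matrix.mul_apply, dm, Matrix.mul_apply, map_sum,
    ← Finset.sum_add_distrib]
  refine Finset.sum_congr rfl fun k _ => ?_
  rw [D.leibniz]
  simp only [smul_eq_mul, dm]
  ring

theorem dm_one {n : ℕ} (D : Derivation ℂ K K) :
    dm D (1 : Matrix (Fin n) (Fin n) K) = 0 := by
  ext i j
  rw [dm, Matrix.one_apply, Matrix.zero_apply]
  split_ifs
  · exact D.map_one_eq_zero
  · exact map_zero D

theorem dm_neg {n : ℕ} (D : Derivation ℂ K K) (A : Matrix (Fin n) (Fin n) K) :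
    dm D (-A) = -dm D A := by
  ext i j
  rw [dm, Matrix.neg_apply, Matrix.neg_apply, map_neg, dm]

theorem dm_inv {n : ℕ} (D : Derivation ℂ K K) {X Y : Matrix (Fin n) (Fin n) K}
    (h : X * Y = 1) : dm D Y = -(Y * dm D X * Y) := by
  have h' : Y * X = 1 := mul_eq_one_comm.1 h
  have h1 : X * dm D Y + dm D X * Y = 0 := by rw [← dm_mul, h, dm_one]
  have h2 : Y * (X * dm D Y + dm D X * Y) = 0 := by rw [h1, mul_zero]
  rw [mul_add, ← mul_assoc, h', one_mul, ← mul_assoc] at h2
  exact eq_neg_of_add_eq_zero_left h2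

/-- NOE -/
theorem t_NOE : S_NOE := by
  intro K _ _ D R n X Y M h
  have hYX : Y * X = 1 := mul_eq_one_comm.1 h.inv
  have hX : dm D X = M * X := by
    ext i j
    rw [Matrix.mul_apply]
    exact h.eq i j
  have hY : dm D Y = -(Y * M) := by
    rw [dm_inv D h.inv, hX, mul_assoc, mul_assoc, h.inv, mul_one]
  have hY' : ∀ i j, D (Y i j) = -∑ k, Y i k * M k j := by
    intro i j
    have h1 := congrFun (congrFun hY i) j
    rw [Matrix.neg_apply, Matrix.mul_apply] at h1
    exact h1
  refine ⟨fun hN => ?_, fun hs => ?_, hY', fun δ hδ ξ hξ => ?_⟩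
  · -- Noetherian
    have hp : ∀ p : MvPolynomial (Sg n) R, aeval (pt X Y) p ∈ mat R X Y := by
      intro p
      induction p using MvPolynomial.induction_on with
      | C a =>
        rw [aeval_C]
        exact base_le a.2
      | add p q hp hq =>
        rw [map_add]
        exact (mat R X Y).add_mem hp hq
      | mul_X p s hp =>
        rw [map_mul, aeval_X]
        refine (mat R X Y).mul_mem hp ?_
        rcases s with s | s
        · exact X_mem s.1 s.2
        · exact Y_mem s.1 s.2
    let S0 : Subalgebra ℂ K :=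
      { carrier := {x | ∃ p : MvPolynomial (Sg n) R, aeval (pt X Y) p = x}
        mul_mem' := by
          rintro a b ⟨p, rfl⟩ ⟨q, rfl⟩
          exact ⟨p * q, map_mul _ _ _⟩
        add_mem' := by
          rintro a b ⟨p, rfl⟩ ⟨q, rfl⟩
          exact ⟨p + q, map_add _ _ _⟩
        algebraMap_mem' := fun c => ⟨C (algebraMap ℂ R c), by
          rw [aeval_C]
          rfl⟩ }
    have hle : mat R X Y ≤ S0 := by
      refine mat_le (fun r hr => ⟨C ⟨r, hr⟩, ?_⟩) (fun i j => ⟨MvPolynomial.X (Sum.inl (i, j)), ?_⟩)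
        fun i j => ⟨MvPolynomial.X (Sum.inr (i, j)), ?_⟩
      · rw [aeval_C]
        rfl
      · rw [aeval_X]
        rfl
      · rw [aeval_X]
        rfl
    let φ : MvPolynomial (Sg n) R →+* mat R X Y :=
      RingHom.codRestrict (aeval (pt X Y) : MvPolynomial (Sg n) R →ₐ[R] K).toRingHom
        (mat R X Y) hp
    have hφ : Function.Surjective φ := by
      rintro ⟨b, hb⟩
      obtain ⟨p, hp⟩ := hle hb
      exact ⟨p, Subtype.ext hp⟩
    exact isNoetherianRing_of_surjective _ _ φ hφ
  · -- stability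
    have h1 : mat R X Y ≤ stabSub D (mat R X Y) := by
      refine mat_le (fun r hr => ⟨base_le hr, base_le (hs r hr)⟩)
        (fun i j => ⟨X_mem i j, ?_⟩) fun i j => ⟨Y_mem i j, ?_⟩
      · rw [h.eq]
        exact Subalgebra.sum_mem _ fun k _ =>
          Subalgebra.mul_mem _ (base_le (h.mem i k)) (X_mem k j)
      · rw [hY']
        exact Subalgebra.neg_mem _ (Subalgebra.sum_mem _ fun k _ =>
          Subalgebra.mul_mem _ (Y_mem i k) (base_le (h.mem k j)))
    exact fun x hx => (h1 hx).2
  · -- symmetries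
    let Ξ : Matrix (Fin n) (Fin n) K := fun i j => algebraMap ℂ K (ξ i j)
    have hXd : dm δ X = X * Ξ := by
      ext i j
      rw [Matrix.mul_apply]
      exact hξ i j
    have hYd : dm δ Y = -(Ξ * Y) := by
      rw [dm_inv δ h.inv, hXd, ← mul_assoc, hYX, one_mul]
    have hYd' : ∀ i j, δ (Y i j) = -∑ k, algebraMap ℂ K (ξ i k) * Y k j := by
      intro i j
      have h1 := congrFun (congrFun hYd i) j
      rw [Matrix.neg_apply, Matrix.mul_apply] at h1
      exact h1
    have h1 : mat R X Y ≤ stabSub δ (mat R X Y) := by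
      refine mat_le (fun r hr => ⟨base_le hr, ?_⟩)
        (fun i j => ⟨X_mem i j, ?_⟩) fun i j => ⟨Y_mem i j, ?_⟩
      · rw [hδ r hr]
        exact Subalgebra.zero_mem _
      · rw [hξ]
        exact Subalgebra.sum_mem _ fun k _ =>
          Subalgebra.mul_mem _ (X_mem i k) (Subalgebra.algebraMap_mem _ _)
      · rw [hYd']
        exact Subalgebra.neg_mem _ (Subalgebra.sum_mem _ fun k _ =>
          Subalgebra.mul_mem _ (Subalgebra.algebraMap_mem _ _) (Y_mem k j))
    refine ⟨hYd', fun x hx => (h1 hx).2, fun hs => ?_⟩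
    have hM : dm δ M = 0 := by
      ext i j
      exact hδ _ (h.mem i j)
    have hΞ : dm D Ξ = 0 := by
      ext i j
      exact D.map_algebraMap _
    have hcX : dm D (dm δ X) = dm δ (dm D X) := by
      rw [hXd, hX, dm_mul, dm_mul, hΞ, hM, hXd, hX]
      simp only [mul_zero, zero_mul, zero_add, add_zero, mul_assoc]
    have hcY : dm D (dm δ Y) = dm δ (dm D Y) := by
      rw [hYd, hY, dm_neg, dm_neg, dm_mul, dm_mul, hΞ, hM, hYd, hY]
      simp only [mul_zero, zero_mul, zero_add, add_zero, mul_assoc, mul_neg, neg_mul]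
    have h2 : mat R X Y ≤ comSub D δ := by
      refine mat_le (fun r hr => ?_) (fun i j => ?_) fun i j => ?_
      · change D (δ r) = δ (D r)
        rw [hδ r hr, hδ _ (hs r hr), map_zero]
      · exact congrFun (congrFun hcX i) j
      · exact congrFun (congrFun hcY i) j
    exact fun b hb => h2 hb

end Pool.Agent.Y71.IL
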